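import Pool.Agent.X216.BH.PS

open Finset Filter Topology Metric

namespace Pool.Agent.X216.BH

/-- Taylor coefficients of `z (z - a) / (1 - a z)` -/
noncomputable def cB (a : ℝ) : ℕ → ℂ
  | 0 => 0
  | 1 => -(a : ℂ)
  | (n + 2) => (((1 - a ^ 2) * a ^ n : ℝ) : ℂ)

lemma den_ne {a : ℝ} (h0 : 0 < a) (h1 : a < 1) {z : ℂ} (hz : ‖z‖ < 1) : 1 - (a : ℂ) * z ≠ 0 := by
  intro hc
  have h2 : ‖(a : ℂ) * z‖ < 1 := by
    rw [norm_mul, Complex.norm_real, Real.norm_of_nonneg h0.le]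
    nlinarith [norm_nonneg z]
  rw [← sub_eq_zero.mp hc] at h2
  simp at h2

lemma isPS_blaschke {a : ℝ} (h0 : 0 < a) (h1 : a < 1) :
    IsPS (cB a) (fun z => z * (z - a) / (1 - a * z)) := by
  intro z hz
  have hne := den_ne h0 h1 hz
  have h2 : ‖(a : ℂ) * z‖ < 1 := by
    rw [norm_mul, Complex.norm_real, Real.norm_of_nonneg h0.le]
    nlinarith [norm_nonneg z]
  have h3 := (hasSum_geometric_of_norm_lt_one h2).mul_left ((1 - (a : ℂ) ^ 2) * z ^ 2)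
  have h4 : (fun n : ℕ => (1 - (a : ℂ) ^ 2) * z ^ 2 * ((a : ℂ) * z) ^ n) =
      fun n => cB a (n + 2) * z ^ (n + 2) := by
    funext n
    show _ = (((1 - a ^ 2) * a ^ n : ℝ) : ℂ) * z ^ (n + 2)
    push_cast
    rw [mul_pow, pow_add]
    ring
  rw [h4] at h3
  have h5 := (hasSum_nat_add_iff (f := fun n => cB a n * z ^ n) 2).mp h3
  have h6 : ∑ i ∈ range 2, cB a i * z ^ i = -(a : ℂ) * z := by
    rw [Finset.sum_range_succ, Finset.sum_range_one]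
    show (0 : ℂ) * z ^ 0 + (-(a : ℂ)) * z ^ 1 = _
    ring
  rw [h6] at h5
  have h7 : (1 - (a : ℂ) ^ 2) * z ^ 2 * (1 - (a : ℂ) * z)⁻¹ + -(a : ℂ) * z =
      z * (z - a) / (1 - a * z) := by
    field_simp
    ring
  rw [h7] at h5
  exact h5

lemma blaschke_norm {a : ℝ} (h0 : 0 < a) (h1 : a < 1) {z : ℂ} (hz : ‖z‖ < 1) :
    ‖z * (z - a) / (1 - a * z)‖ ≤ 1 := by
  have hne := den_ne h0 h1 hz
  have h3 : ‖z - a‖ ^ 2 ≤ ‖1 - (a : ℂ) * z‖ ^ 2 := by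
    have e : ‖1 - (a : ℂ) * z‖ ^ 2 - ‖z - a‖ ^ 2 = (1 - a ^ 2) * (1 - ‖z‖ ^ 2) := by
      simp only [← Complex.normSq_eq_norm_sq, Complex.normSq_apply, Complex.mul_re, Complex.mul_im,
        Complex.sub_re, Complex.sub_im, Complex.one_re,
        Complex.one_im, Complex.ofReal_re, Complex.ofReal_im]
      ring
    have h5 : 0 ≤ (1 - a ^ 2) * (1 - ‖z‖ ^ 2) := by
      apply mul_nonneg <;> nlinarith [norm_nonneg z]
    linarith
  have h4 := le_of_sq_le_sq h3 (norm_nonneg _)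
  rw [norm_div, norm_mul]
  apply div_le_one_of_le₀ _ (norm_nonneg _)
  calc ‖z‖ * ‖z - a‖ ≤ 1 * ‖z - a‖ := mul_le_mul_of_nonneg_right hz.le (norm_nonneg _)
    _ ≤ _ := by rw [one_mul]; exact h4

lemma norm_cB_zero (a : ℝ) (h0 : 0 < a) : ‖cB a (0 + 1)‖ = a := by
  show ‖-(a : ℂ)‖ = a
  rw [norm_neg, Complex.norm_real, Real.norm_of_nonneg h0.le]

lemma norm_cB_succ (a : ℝ) (h0 : 0 < a) (h1 : a < 1) (n : ℕ) :
    ‖cB a (n + 1 + 1)‖ = (1 - a ^ 2) * a ^ n := by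
  show ‖(((1 - a ^ 2) * a ^ n : ℝ) : ℂ)‖ = _
  rw [Complex.norm_real, Real.norm_of_nonneg]
  apply mul_nonneg
  · nlinarith
  · positivity

lemma hasSum_cB {a r : ℝ} (h0 : 0 < a) (h1 : a < 1) (hr : 0 ≤ r) (har : r * a < 1) :
    HasSum (fun n => ‖cB a (n + 1)‖ * r ^ (n + 1)) (r * a + r ^ 2 * (1 - a ^ 2) / (1 - r * a)) := by
  have h2 : HasSum (fun n : ℕ => (r * a) ^ n) (1 - r * a)⁻¹ :=
    hasSum_geometric_of_lt_one (by positivity) har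
  have h3 := h2.mul_left (r ^ 2 * (1 - a ^ 2))
  have h4 : (fun n : ℕ => r ^ 2 * (1 - a ^ 2) * (r * a) ^ n) =
      fun n => ‖cB a (n + 1 + 1)‖ * r ^ (n + 1 + 1) := by
    funext n
    rw [norm_cB_succ a h0 h1]
    ring
  rw [h4] at h3
  have h5 := (hasSum_nat_add_iff (f := fun n => ‖cB a (n + 1)‖ * r ^ (n + 1)) 1).mp h3
  rw [Finset.sum_range_one, norm_cB_zero a h0] at h5
  have h6 : r ^ 2 * (1 - a ^ 2) * (1 - r * a)⁻¹ + a * r ^ (0 + 1) =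
      r * a + r ^ 2 * (1 - a ^ 2) / (1 - r * a) := by ring
  rw [h6] at h5
  exact h5

/-- the value of the sum at `a = (1 + m) / (4 r)` -/
lemma sharp_value {m r a : ℝ} (hm1 : 1 / 2 ≤ m) (hm2 : m ≤ 1) (hr0 : 0 < r)
    (ha : a = (1 + m) / (4 * r)) :
    r * a + r ^ 2 * (1 - a ^ 2) / (1 - r * a) - m =
      (r ^ 2 - (-m ^ 2 + 6 * m - 1) / 8) / (1 - r * a) ∧ 0 < 1 - r * a := by
  have hu : r * a = (1 + m) / 4 := by
    rw [ha]
    field_simp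
  have hu2 : r ^ 2 * a ^ 2 = ((1 + m) / 4) ^ 2 := by rw [← hu]; ring
  have hD : 0 < 1 - r * a := by rw [hu]; linarith
  refine ⟨?_, hD⟩
  have e : r ^ 2 * (1 - a ^ 2) = r ^ 2 - ((1 + m) / 4) ^ 2 := by rw [← hu2]; ring
  rw [e, hu]
  rw [hu] at hD
  have hD' : 1 - (1 + m) / 4 ≠ 0 := ne_of_gt hD
  rw [eq_div_iff hD']
  have e2 : (r ^ 2 - ((1 + m) / 4) ^ 2) / (1 - (1 + m) / 4) * (1 - (1 + m) / 4) =
      r ^ 2 - ((1 + m) / 4) ^ 2 := div_mul_cancel₀ _ hD'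
  linear_combination e2

end Pool.Agent.X216.BH
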