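import Pool.Agent.X216.BH.Num

open Finset

namespace Pool.Agent.X216.BH

lemma abel (l : ℕ → ℝ) (hl : Antitone l) (d : ℕ → ℝ)
    (hd : ∀ N, 0 ≤ ∑ n ∈ range N, d n) (N : ℕ) :
    l N * ∑ n ∈ range N, d n ≤ ∑ n ∈ range N, l n * d n := by
  induction N with
  | zero => simp
  | succ N ih =>
    rw [Finset.sum_range_succ (fun n => l n * d n)]
    have h1 : l (N + 1) ≤ l N := hl (Nat.le_succ N)
    have h2 := mul_le_mul_of_nonneg_right h1 (hd (N + 1))
    rw [Finset.sum_range_succ] at h2 ⊢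
    nlinarith

/-- consequence of Rogosinski's inequality with weights -/
lemma weighted (α β : ℕ → ℝ) (h : ∀ N, ∑ n ∈ range N, ((n : ℝ) + 1) ^ 2 * β n ^ 2 ≤
    ∑ n ∈ range N, ((n : ℝ) + 1) ^ 2 * α n ^ 2) {ρ : ℝ} (h0 : 0 < ρ) (h1 : ρ ≤ 1) (N : ℕ) :
    ∑ n ∈ range N, ρ ^ n * β (n + 1) ^ 2 ≤
      ∑ n ∈ range N, ρ ^ n * α (n + 1) ^ 2 + (α 0 ^ 2 - β 0 ^ 2) / 4 := by
  obtain ⟨l, hl⟩ : ∃ l : ℕ → ℝ, l = (fun n : ℕ => if n = 0 then ρ ^ 2 / 4 else
      ρ ^ (n + 1) / ((n : ℝ) + 1) ^ 2) := by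
    exact ⟨fun n : ℕ => if n = 0 then ρ ^ 2 / 4 else ρ ^ (n + 1) / ((n : ℝ) + 1) ^ 2, rfl⟩
  have hanti : Antitone l := by
    apply antitone_nat_of_succ_le
    intro n
    rw [hl]
    simp only [Nat.add_eq_zero_iff, one_ne_zero, and_false, if_false]
    by_cases hn : n = 0
    · subst hn
      simp only [if_true]
      norm_num
    · simp only [hn, if_false]
      push_cast
      apply div_le_div₀ (by positivity)
      · exact pow_le_pow_of_le_one h0.le h1 (Nat.le_succ _)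
      · positivity
      · have : (0 : ℝ) ≤ n := Nat.cast_nonneg n
        nlinarith
  obtain ⟨d, hd⟩ : ∃ d : ℕ → ℝ, d = fun n : ℕ => ((n : ℝ) + 1) ^ 2 * (α n ^ 2 - β n ^ 2) :=
    ⟨_, rfl⟩
  have hd0 : ∀ N, 0 ≤ ∑ n ∈ range N, d n := by
    intro N
    have := h N
    have e : ∑ n ∈ range N, d n = ∑ n ∈ range N, ((n : ℝ) + 1) ^ 2 * α n ^ 2 -
        ∑ n ∈ range N, ((n : ℝ) + 1) ^ 2 * β n ^ 2 := by
      rw [← Finset.sum_sub_distrib, hd]
      apply Finset.sum_congr rfl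
      intro n _
      ring
    rw [e]
    linarith
  have hl0 : ∀ n, 0 ≤ l n := by
    intro n
    rw [hl]
    simp only
    split_ifs <;> positivity
  have hab := abel l hanti d hd0 (N + 1)
  have h2 : 0 ≤ ∑ n ∈ range (N + 1), l n * d n :=
    le_trans (mul_nonneg (hl0 _) (hd0 _)) hab
  rw [Finset.sum_range_succ'] at h2
  have h3 : ∑ n ∈ range N, l (n + 1) * d (n + 1) =
      ρ ^ 2 * (∑ n ∈ range N, ρ ^ n * α (n + 1) ^ 2 - ∑ n ∈ range N, ρ ^ n * β (n + 1) ^ 2) := by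
    rw [← Finset.sum_sub_distrib, Finset.mul_sum]
    apply Finset.sum_congr rfl
    intro n _
    rw [hl, hd]
    simp only [Nat.add_eq_zero_iff, one_ne_zero, and_false, if_false]
    push_cast
    have : (n : ℝ) + 1 + 1 ≠ 0 := by positivity
    field_simp
    ring
  have h4 : l 0 * d 0 = ρ ^ 2 * ((α 0 ^ 2 - β 0 ^ 2) / 4) := by
    rw [hl, hd]
    simp only [if_true]
    push_cast
    ring
  rw [h3, h4, ← mul_add] at h2
  have h5 : 0 < ρ ^ 2 := by positivity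
  have h6 := nonneg_of_mul_nonneg_right h2 h5
  linarith

/-- weighted Cauchy–Schwarz -/
lemma cs (γ : ℕ → ℝ) {r ρ q : ℝ} (hq0 : 0 ≤ q) (hρ : 0 < ρ) (hr : r ^ 2 = ρ * q) (N : ℕ) :
    (∑ n ∈ range N, γ n * r ^ (n + 2)) ^ 2 * (1 - q) ≤
      r ^ 4 * ∑ n ∈ range N, ρ ^ n * γ n ^ 2 := by
  have h1 : (∑ n ∈ range N, γ n * r ^ (n + 2)) ^ 2 ≤
      (∑ n ∈ range N, ρ ^ n * γ n ^ 2) * ∑ n ∈ range N, r ^ 4 * q ^ n := by
    apply Finset.sum_sq_le_sum_mul_sum_of_sq_le_mul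
    · intro n _
      positivity
    · intro n _
      positivity
    · intro n _
      apply le_of_eq
      have : r ^ (n + 2) * r ^ (n + 2) = r ^ 4 * (r ^ 2) ^ n := by ring
      calc (γ n * r ^ (n + 2)) ^ 2 = γ n ^ 2 * (r ^ (n + 2) * r ^ (n + 2)) := by ring
        _ = γ n ^ 2 * (r ^ 4 * (ρ * q) ^ n) := by rw [this, hr]
        _ = _ := by rw [mul_pow]; ring
  have h2 : (∑ n ∈ range N, q ^ n) * (1 - q) = 1 - q ^ N := by
    have := geom_sum_mul_neg q N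
    exact this
  have h3 : 0 ≤ ∑ n ∈ range N, ρ ^ n * γ n ^ 2 := Finset.sum_nonneg (fun n _ => by positivity)
  have h4 : 0 ≤ q ^ N := by positivity
  rcases le_or_gt q 1 with hq1 | hq1
  · calc (∑ n ∈ range N, γ n * r ^ (n + 2)) ^ 2 * (1 - q)
        ≤ ((∑ n ∈ range N, ρ ^ n * γ n ^ 2) * ∑ n ∈ range N, r ^ 4 * q ^ n) * (1 - q) :=
          mul_le_mul_of_nonneg_right h1 (by linarith)
      _ = r ^ 4 * (∑ n ∈ range N, ρ ^ n * γ n ^ 2) * ((∑ n ∈ range N, q ^ n) * (1 - q)) := by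
          rw [← Finset.mul_sum]; ring
      _ = r ^ 4 * (∑ n ∈ range N, ρ ^ n * γ n ^ 2) * (1 - q ^ N) := by rw [h2]
      _ ≤ r ^ 4 * (∑ n ∈ range N, ρ ^ n * γ n ^ 2) * 1 := by
          apply mul_le_mul_of_nonneg_left _ (by positivity)
          linarith
      _ = _ := by ring
  · have h5 : (∑ n ∈ range N, γ n * r ^ (n + 2)) ^ 2 * (1 - q) ≤ 0 :=
      mul_nonpos_of_nonneg_of_nonpos (by positivity) (by linarith)
    have h6 : 0 ≤ r ^ 4 * ∑ n ∈ range N, ρ ^ n * γ n ^ 2 := by positivity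
    linarith

lemma small_case {r s P : ℝ} (hs : s ≤ r) (hs0 : 0 ≤ s) (hr2 : r ^ 2 ≤ 1 / 2)
    (h : P ^ 2 * (1 - r ^ 2) ≤ r ^ 4 * (1 - s ^ 2)) : r * s + P ≤ 2 * r ^ 2 := by
  have hr0 : 0 ≤ r := hs0.trans hs
  have hD : 0 < 1 - r ^ 2 := by linarith
  have h1 : r ^ 4 * (1 - s ^ 2) ≤ (r * (2 * r - s)) ^ 2 * (1 - r ^ 2) := by
    have e : (r * (2 * r - s)) ^ 2 * (1 - r ^ 2) - r ^ 4 * (1 - s ^ 2) =
        r ^ 2 * ((r - s) ^ 2 + (r - s) * (2 * r) * (1 - 2 * r ^ 2)) := by ring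
    have h2 : 0 ≤ r ^ 2 * ((r - s) ^ 2 + (r - s) * (2 * r) * (1 - 2 * r ^ 2)) := by
      have h3 : 0 ≤ (r - s) * (2 * r) * (1 - 2 * r ^ 2) :=
        mul_nonneg (mul_nonneg (by linarith) (by linarith)) (by linarith)
      have := sq_nonneg (r - s)
      apply mul_nonneg (sq_nonneg _)
      linarith
    linarith
  have h2 : P ^ 2 ≤ (r * (2 * r - s)) ^ 2 := le_of_mul_le_mul_right (h.trans h1) hD
  have h3 : P ≤ r * (2 * r - s) := le_of_sq_le_sq h2 (mul_nonneg hr0 (by linarith))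
  nlinarith

/-- Case a ≥ r, the bound for the analytic part. -/
lemma large_case1 {r a m H : ℝ} (hr0 : 0 < r) (hr1 : r < 1) (ha1 : a ≤ 1) (har : r ≤ a)
    (hrm : r ^ 2 = (-m ^ 2 + 6 * m - 1) / 8)
    (h : H ^ 2 * (1 - r * a) ^ 2 ≤ r ^ 4 * (1 - a ^ 2) ^ 2) : r * a + H ≤ m := by
  have ha0 : 0 < a := by linarith
  have hu : r * a < 1 := by nlinarith
  have hD : 0 < 1 - r * a := by linarith
  have h1 : (H * (1 - r * a)) ^ 2 ≤ (r ^ 2 * (1 - a ^ 2)) ^ 2 := by nlinarith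
  have h2 : H * (1 - r * a) ≤ r ^ 2 * (1 - a ^ 2) :=
    le_of_sq_le_sq h1 (mul_nonneg (sq_nonneg _) (by nlinarith))
  have h3 : (r * a + H) * (1 - r * a) ≤ m * (1 - r * a) := by
    nlinarith [sq_nonneg (r * a - (1 + m) / 4)]
  exact le_of_mul_le_mul_right h3 hD

lemma large_case2 {r a m B P : ℝ} (hr0 : 0 < r) (hr1 : r < 1) (ha1 : a ≤ 1) (har : r ≤ a)
    (hB0 : 0 ≤ B) (hBa : B ≤ a) (hm1 : 1 / 2 ≤ m) (hm2 : m ≤ 1)
    (hrm : r ^ 2 = (-m ^ 2 + 6 * m - 1) / 8)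
    (h : P ^ 2 * (1 - r * a) ^ 2 ≤ r ^ 4 * (1 - a ^ 2) ^ 2 +
      r ^ 4 * (a ^ 2 - B ^ 2) * (1 - r * a) / 4) : r * B + P ≤ m := by
  have ha0 : 0 < a := by linarith
  have hu : r * a < 1 := by nlinarith
  obtain ⟨u, hu'⟩ : ∃ u, u = r * a := ⟨_, rfl⟩
  obtain ⟨D, hD'⟩ : ∃ D, D = 1 - u := ⟨_, rfl⟩
  obtain ⟨x, hx⟩ : ∃ x, x = r ^ 2 := ⟨_, rfl⟩
  obtain ⟨y, hy⟩ : ∃ y, y = r ^ 2 * (1 - a ^ 2) := ⟨_, rfl⟩
  have hD : 0 < D := by rw [hD', hu']; linarith
  have hu0 : 0 < u := by rw [hu']; positivity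
  have hur : u ≤ r := by rw [hu']; nlinarith
  have ha2 : 0 ≤ 1 - a ^ 2 := by nlinarith
  have hy0 : 0 ≤ y := by rw [hy]; positivity
  have hx0 : 0 < x := by rw [hx]; positivity
  have hyx : y = x - u ^ 2 := by rw [hy, hx, hu']; ring
  rcases le_or_gt (r * a) (4 * (1 - a ^ 2)) with hc | hc
  · -- case 1
    have h1 : (P * (1 - r * a)) ^ 2 ≤ (r ^ 2 * (1 - a ^ 2) + r * (a - B) * (1 - r * a)) ^ 2 := by
      have h2 : (r ^ 2 * (1 - a ^ 2)) ^ 2 + 2 * (r ^ 2 * (1 - a ^ 2)) * (r * (a - B) * (1 - r * a)) ≤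
          (r ^ 2 * (1 - a ^ 2) + r * (a - B) * (1 - r * a)) ^ 2 := by
        nlinarith [sq_nonneg (r * (a - B) * (1 - r * a))]
      have h3 : r ^ 4 * (a ^ 2 - B ^ 2) * (1 - r * a) / 4 ≤
          2 * (r ^ 2 * (1 - a ^ 2)) * (r * (a - B) * (1 - r * a)) := by
        have h4 : 0 ≤ r ^ 3 * (a - B) * (1 - r * a) :=
          mul_nonneg (mul_nonneg (by positivity) (by linarith)) (by linarith)
        have h5 : r * (a + B) / 4 ≤ 2 * (1 - a ^ 2) := by nlinarith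
        have h6 := mul_le_mul_of_nonneg_left h5 h4
        nlinarith
      have h7 : (P * (1 - r * a)) ^ 2 = P ^ 2 * (1 - r * a) ^ 2 := by ring
      have h8 : (r ^ 2 * (1 - a ^ 2)) ^ 2 = r ^ 4 * (1 - a ^ 2) ^ 2 := by ring
      linarith
    have h2 : P * (1 - r * a) ≤ r ^ 2 * (1 - a ^ 2) + r * (a - B) * (1 - r * a) := by
      apply le_of_sq_le_sq h1
      apply add_nonneg (by positivity)
      exact mul_nonneg (mul_nonneg hr0.le (by linarith)) (by linarith)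
    have h3 : (r * B + P) * (1 - r * a) ≤ m * (1 - r * a) := by
      nlinarith [sq_nonneg (r * a - (1 + m) / 4)]
    exact le_of_mul_le_mul_right h3 (by linarith)
  · -- case 2
    rw [← hu'] at hc h
    rw [← hD'] at h
    obtain ⟨hA, hB⟩ := final_AB m r hm1 hm2 hr0.le hrm
    have hyu : y ≤ x * u / 4 := by
      rw [hy, ← hx]
      have := mul_le_mul_of_nonneg_left hc.le hx0.le
      linarith
    -- Cauchy–Schwarz
    obtain ⟨κ, hκ⟩ : ∃ κ, κ = r ^ 4 / (4 * D) := ⟨_, rfl⟩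
    have hκ0 : 0 < κ := by rw [hκ]; positivity
    obtain ⟨t, ht⟩ : ∃ t, t = 4 * D / x := ⟨_, rfl⟩
    have ht0 : 0 < t := by rw [ht]; positivity
    have hκt : κ * t = x := by
      rw [hκ, ht, hx]
      field_simp
    have h1 : P ^ 2 + κ * B ^ 2 ≤ y ^ 2 / D ^ 2 + κ * a ^ 2 := by
      have h2 : (P ^ 2 + κ * B ^ 2) * D ^ 2 ≤ (y ^ 2 / D ^ 2 + κ * a ^ 2) * D ^ 2 := by
        have e1 : κ * D = r ^ 4 / 4 := by rw [hκ]; field_simp
        have e2 : y ^ 2 / D ^ 2 * D ^ 2 = y ^ 2 := by field_simp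
        have e3 : (y ^ 2 / D ^ 2 + κ * a ^ 2) * D ^ 2 = y ^ 2 + (κ * D) * D * a ^ 2 := by
          rw [add_mul, e2]; ring
        have e4 : (P ^ 2 + κ * B ^ 2) * D ^ 2 = P ^ 2 * D ^ 2 + (κ * D) * D * B ^ 2 := by ring
        have e5 : y ^ 2 = r ^ 4 * (1 - a ^ 2) ^ 2 := by rw [hy]; ring
        rw [e3, e4, e1, e5]
        linarith
      exact le_of_mul_le_mul_right h2 (by positivity)
    have h2 : (r * B + P) ^ 2 ≤ (P ^ 2 + κ * B ^ 2) * (1 + t) := by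
      have e1 : 0 ≤ κ * ((P ^ 2 + κ * B ^ 2) * (1 + t) - (r * B + P) ^ 2) := by
        have e2 : κ * ((P ^ 2 + κ * B ^ 2) * (1 + t) - (r * B + P) ^ 2) =
            (κ * B - r * P) ^ 2 + (κ * t - r ^ 2) * (P ^ 2 + κ * B ^ 2) := by ring
        rw [e2, hκt, hx]
        have := sq_nonneg (κ * B - r * P)
        linarith
      have := nonneg_of_mul_nonneg_right e1 hκ0
      linarith
    have h3 : (r * B + P) ^ 2 ≤ (y ^ 2 / D ^ 2 + κ * a ^ 2) * (1 + t) :=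
      h2.trans (mul_le_mul_of_nonneg_right h1 (by linarith))
    have h4 : (y ^ 2 / D ^ 2 + κ * a ^ 2) * (1 + t) =
        u ^ 2 + x * (u ^ 2 / (4 * D)) + 4 * y * y / (x * D) + y * (y / D ^ 2) := by
      rw [hκ, ht, hu', hx]
      field_simp
      ring
    have h5 : 4 * y * y / (x * D) ≤ y * (u / D) := by
      rw [div_le_iff₀ (by positivity)]
      have : y * (u / D) * (x * D) = y * (x * u) := by field_simp
      rw [this]
      nlinarith
    have h6 : y * (y / D ^ 2) ≤ y * (x * u / (4 * D ^ 2)) := by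
      apply mul_le_mul_of_nonneg_left _ hy0
      rw [div_le_div_iff₀ (by positivity) (by positivity)]
      nlinarith [sq_nonneg D]
    obtain ⟨E, hE⟩ : ∃ E, E = -1 + u / D + x * u / (4 * D ^ 2) := ⟨_, rfl⟩
    have h7 : (r * B + P) ^ 2 ≤ x + x * (u ^ 2 / (4 * D)) + y * E := by
      have : u ^ 2 = x - y := by rw [hyx]; ring
      rw [hE]
      linarith
    have hDr : 1 - r ≤ D := by rw [hD']; linarith
    have h1r : 0 < 1 - r := by linarith
    have hux : u ^ 2 ≤ x := by rw [hx]; exact pow_le_pow_left₀ hu0.le hur 2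
    have h8 : x * (u ^ 2 / (4 * D)) ≤ x * (x / (4 * (1 - r))) := by
      apply mul_le_mul_of_nonneg_left _ hx0.le
      apply div_le_div₀ hx0.le hux (by linarith)
      linarith
    have hfin : (r * B + P) ^ 2 ≤ m ^ 2 := by
      rcases le_or_gt E 0 with hE0 | hE0
      · have h9 : y * E ≤ 0 := mul_nonpos_of_nonneg_of_nonpos hy0 hE0
        have h10 : x * (x / (4 * (1 - r))) = x ^ 2 / (4 * (1 - r)) := by ring
        rw [← hx] at hA
        linarith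
      · obtain ⟨E', hE'⟩ : ∃ E', E' = -1 + r / (1 - r) + x * r / (4 * (1 - r) ^ 2) := ⟨_, rfl⟩
        have h9 : E ≤ E' := by
          rw [hE, hE']
          have e1 : u / D ≤ r / (1 - r) := div_le_div₀ hr0.le hur h1r hDr
          have e2 : x * u / (4 * D ^ 2) ≤ x * r / (4 * (1 - r) ^ 2) := by
            apply div_le_div₀ (by positivity) (mul_le_mul_of_nonneg_left hur hx0.le) (by positivity)
            have := pow_le_pow_left₀ h1r.le hDr 2
            linarith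
          linarith
        have h10 : y ≤ x * r / 4 := by
          have := mul_le_mul_of_nonneg_left hur hx0.le
          linarith
        have h11 : y * E ≤ x * r / 4 * E' :=
          mul_le_mul h10 h9 hE0.le (by positivity)
        have h12 : x + x * (x / (4 * (1 - r))) + x * r / 4 * E' =
            x * ((1 + x / (4 * (1 - r))) ^ 2 - r / 4) := by
          rw [hE', hx]
          field_simp
          ring
        rw [← hx] at hB
        linarith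
    exact le_of_sq_le_sq hfin (by linarith)

end Pool.Agent.X216.BH
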