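import Pool.Agent.X216.BH.Quot
import Pool.Agent.X216.BH.Rl

open Finset Filter Topology Metric

namespace Pool.Agent.X216.BH

lemma isPS_dslope {a : ℕ → ℂ} {h : ℂ → ℂ} (ha : IsPS a h) (ha0 : a 0 = 0) :
    IsPS (fun n => a (n + 1)) (dslope h 0) := by
  have hh0 : h 0 = 0 := by rw [ha.at_zero, ha0]
  intro z hz
  by_cases hz0 : z = 0
  · subst hz0
    rw [dslope_same]
    have h1 := ha.deriv.at_zero
    have h2 : deriv h 0 = a 1 := by rw [h1]; simp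
    rw [h2]
    have h3 : HasSum (fun n => a (n + 1) * (0 : ℂ) ^ n) (a (0 + 1) * (0 : ℂ) ^ 0) :=
      hasSum_single 0 (by
        intro n hn
        simp [hn])
    simpa using h3
  · have h1 : dslope h 0 z = z⁻¹ * h z := by
      rw [dslope_of_ne _ hz0, slope_def_field, hh0]
      simp [div_eq_inv_mul]
    rw [h1]
    have h2 := (hasSum_nat_add_iff' 1).mpr (ha z hz)
    simp only [Finset.range_one, Finset.sum_singleton, ha0, zero_mul, sub_zero] at h2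
    have h3 := h2.mul_left z⁻¹
    have h4 : (fun n => z⁻¹ * (a (n + 1) * z ^ (n + 1))) = fun n => a (n + 1) * z ^ n := by
      funext n
      field_simp
      ring
    rw [h4] at h3
    exact h3

/-- the bound at the critical radius for a normalized function -/
lemma core {a b : ℕ → ℂ} {h g : ℂ → ℂ} {k m r : ℝ} (ha : IsPS a h) (hb : IsPS b g)
    (ha0 : a 0 = 0) (hb0 : b 0 = 0) (hh : ∀ z : ℂ, ‖z‖ < 1 → ‖h z‖ ≤ 1) (hk : 0 < k)
    (hgh : ∀ z : ℂ, ‖z‖ < 1 → ‖deriv g z‖ ≤ k * ‖deriv h z‖)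
    (hmk : m * (1 + k) = 1) (hm1 : 1 / 2 ≤ m) (hm2 : m ≤ 1) (hr0 : 0 < r)
    (hrm : r ^ 2 = (-m ^ 2 + 6 * m - 1) / 8) (N : ℕ) :
    ∑ n ∈ range N, (‖a n‖ + ‖b n‖) * r ^ n ≤ 1 := by
  have hB := isPS_dslope ha ha0
  have hh0 : h 0 = 0 := by rw [ha.at_zero, ha0]
  have hB1 : ∀ z : ℂ, ‖z‖ < 1 → ‖dslope h 0 z‖ ≤ 1 := by
    intro z hz
    have hmaps : Set.MapsTo h (ball (0 : ℂ) 1) (closedBall (h 0) 1) := by
      intro w hw
      rw [hh0]
      have := hh w (by simpa using hw)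
      simpa using this
    have h2 : z ∈ ball (0 : ℂ) 1 := by simpa using hz
    have := Complex.norm_dslope_le_div_of_mapsTo_ball ha.diff hmaps h2
    simpa using this
  obtain ⟨α, hα⟩ : ∃ α : ℕ → ℝ, α = fun n : ℕ => ‖a (n + 1)‖ := ⟨_, rfl⟩
  obtain ⟨β, hβ⟩ : ∃ β : ℕ → ℝ, β = fun n : ℕ => ‖b (n + 1)‖ / k := ⟨_, rfl⟩
  have hα1 : α 0 ≤ 1 := by
    have h1 := hB1 0 (by simp)
    rw [hB.at_zero] at h1
    rw [hα]
    exact h1
  have hα0 : ∀ n, 0 ≤ α n := by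
    intro n
    rw [hα]
    exact norm_nonneg _
  have hβ0 : ∀ n, 0 ≤ β n := by
    intro n
    rw [hβ]
    positivity
  -- Rogosinski
  have hR : ∀ N, ∑ n ∈ range N, ((n : ℝ) + 1) ^ 2 * β n ^ 2 ≤
      ∑ n ∈ range N, ((n : ℝ) + 1) ^ 2 * α n ^ 2 := by
    intro N
    have hF : IsPS (fun n => (k : ℂ) * (((n : ℂ) + 1) * a (n + 1))) (fun z => (k : ℂ) * deriv h z) := by
      intro z hz
      have h1 := (ha.deriv z hz).mul_left (k : ℂ)
      have h2 : (fun n : ℕ => (k : ℂ) * (((n : ℂ) + 1) * a (n + 1) * z ^ n)) =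
          fun n : ℕ => (k : ℂ) * (((n : ℂ) + 1) * a (n + 1)) * z ^ n := by
        funext n
        ring
      rw [h2] at h1
      exact h1
    have h3 := rogosinski hF hb.deriv (by
      intro z hz
      rw [norm_mul, Complex.norm_real, Real.norm_of_nonneg hk.le]
      exact hgh z hz) N
    have hk2 : 0 < k ^ 2 := by positivity
    have e : ∀ n : ℕ, ‖((n : ℂ) + 1)‖ = (n : ℝ) + 1 := by
      intro n
      have : ((n : ℂ) + 1) = (((n : ℝ) + 1 : ℝ) : ℂ) := by push_cast; rfl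
      rw [this, Complex.norm_real, Real.norm_of_nonneg (by positivity)]
    have e1 : ∑ n ∈ range N, ‖((n : ℂ) + 1) * b (n + 1)‖ ^ 2 =
        k ^ 2 * ∑ n ∈ range N, ((n : ℝ) + 1) ^ 2 * β n ^ 2 := by
      rw [Finset.mul_sum]
      apply Finset.sum_congr rfl
      intro n _
      rw [norm_mul, e, hβ]
      simp only
      field_simp
    have e2 : ∑ n ∈ range N, ‖(k : ℂ) * (((n : ℂ) + 1) * a (n + 1))‖ ^ 2 =
        k ^ 2 * ∑ n ∈ range N, ((n : ℝ) + 1) ^ 2 * α n ^ 2 := by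
      rw [Finset.mul_sum]
      apply Finset.sum_congr rfl
      intro n _
      rw [norm_mul, norm_mul, e, hα, Complex.norm_real, Real.norm_of_nonneg hk.le]
      ring
    rw [e1, e2] at h3
    exact le_of_mul_le_mul_left h3 hk2
  have hβα : β 0 ≤ α 0 := by
    have h1 := hR 1
    simp only [Finset.range_one, Finset.sum_singleton, Nat.cast_zero, zero_add, one_pow, one_mul] at h1
    exact le_of_sq_le_sq h1 (hα0 0)
  have hF1 : ∀ ρ : ℝ, 0 < ρ → ρ ≤ 1 → ∀ N : ℕ,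
      (∑ n ∈ range N, ρ ^ n * α (n + 1) ^ 2) * (1 - α 0 ^ 2 * ρ) ≤ (1 - α 0 ^ 2) ^ 2 := by
    intro ρ h0 h1 N
    have h2 := F1 hB hB1 h0.le h1 N
    have e : (∑ n ∈ range N, ‖a (n + 1 + 1)‖ ^ 2 * ρ ^ (n + 1)) =
        ρ * ∑ n ∈ range N, ρ ^ n * α (n + 1) ^ 2 := by
      rw [Finset.mul_sum]
      apply Finset.sum_congr rfl
      intro n _
      rw [hα]
      ring
    rw [e] at h2
    have e2 : ‖a (0 + 1)‖ = α 0 := by rw [hα]
    rw [e2, mul_assoc] at h2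
    exact le_of_mul_le_mul_left h2 h0
  -- numerical facts
  have hr2 : r ^ 2 ≤ 1 / 2 := by
    rw [hrm]
    nlinarith
  have hr1 : r < 1 := by nlinarith
  have h2r : 2 * r ^ 2 ≤ m := by
    rw [hrm]
    nlinarith [sq_nonneg (1 - m)]
  -- main estimates
  have key : r * α 0 + ∑ n ∈ range N, α (n + 1) * r ^ (n + 2) ≤ m ∧
      r * β 0 + ∑ n ∈ range N, β (n + 1) * r ^ (n + 2) ≤ m := by
    obtain ⟨H, hH⟩ : ∃ H, H = ∑ n ∈ range N, α (n + 1) * r ^ (n + 2) := ⟨_, rfl⟩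
    obtain ⟨P, hP⟩ : ∃ P, P = ∑ n ∈ range N, β (n + 1) * r ^ (n + 2) := ⟨_, rfl⟩
    rw [← hH, ← hP]
    have hr4 : 0 ≤ r ^ 4 := by positivity
    rcases lt_or_ge (α 0) r with hlt | hge
    · have hA := hF1 1 one_pos le_rfl N
      have hW := weighted α β hR one_pos le_rfl N
      have hcH := cs (fun n => α (n + 1)) (sq_nonneg r) one_pos (by ring : r ^ 2 = 1 * r ^ 2) N
      have hcP := cs (fun n => β (n + 1)) (sq_nonneg r) one_pos (by ring : r ^ 2 = 1 * r ^ 2) N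
      rw [← hH] at hcH
      rw [← hP] at hcP
      obtain ⟨A, hA'⟩ : ∃ A, A = ∑ n ∈ range N, (1 : ℝ) ^ n * α (n + 1) ^ 2 := ⟨_, rfl⟩
      obtain ⟨A2, hA2'⟩ : ∃ A2, A2 = ∑ n ∈ range N, (1 : ℝ) ^ n * β (n + 1) ^ 2 := ⟨_, rfl⟩
      rw [← hA'] at hA hW hcH
      rw [← hA2'] at hW hcP
      have hpos : 0 < 1 - α 0 ^ 2 := by nlinarith [hα0 0]
      have hA1 : A ≤ 1 - α 0 ^ 2 := by
        have : A * (1 - α 0 ^ 2) ≤ (1 - α 0 ^ 2) * (1 - α 0 ^ 2) := by nlinarith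
        exact le_of_mul_le_mul_right this hpos
      constructor
      · have h1 : H ^ 2 * (1 - r ^ 2) ≤ r ^ 4 * (1 - α 0 ^ 2) :=
          hcH.trans (mul_le_mul_of_nonneg_left hA1 hr4)
        exact (small_case hlt.le (hα0 0) hr2 h1).trans h2r
      · have h3 : A2 ≤ 1 - β 0 ^ 2 := by nlinarith [hα0 0, hβ0 0]
        have h1 : P ^ 2 * (1 - r ^ 2) ≤ r ^ 4 * (1 - β 0 ^ 2) :=
          hcP.trans (mul_le_mul_of_nonneg_left h3 hr4)
        exact (small_case (hβα.trans hlt.le) (hβ0 0) hr2 h1).trans h2r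
    · have ha0' : 0 < α 0 := lt_of_lt_of_le hr0 hge
      have hρ0 : 0 < r / α 0 := by positivity
      have hρ1 : r / α 0 ≤ 1 := by rwa [div_le_one ha0']
      have hq0 : 0 ≤ r * α 0 := by positivity
      have hrq : r ^ 2 = r / α 0 * (r * α 0) := by field_simp
      have hA := hF1 (r / α 0) hρ0 hρ1 N
      have hW := weighted α β hR hρ0 hρ1 N
      have hcH := cs (fun n => α (n + 1)) hq0 hρ0 hrq N
      have hcP := cs (fun n => β (n + 1)) hq0 hρ0 hrq N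
      rw [← hH] at hcH
      rw [← hP] at hcP
      obtain ⟨A, hA'⟩ : ∃ A, A = ∑ n ∈ range N, (r / α 0) ^ n * α (n + 1) ^ 2 := ⟨_, rfl⟩
      obtain ⟨A2, hA2'⟩ : ∃ A2, A2 = ∑ n ∈ range N, (r / α 0) ^ n * β (n + 1) ^ 2 := ⟨_, rfl⟩
      rw [← hA'] at hA hW hcH
      rw [← hA2'] at hW hcP
      have e1 : α 0 ^ 2 * (r / α 0) = r * α 0 := by field_simp
      rw [e1] at hA
      have hD : 0 < 1 - r * α 0 := by nlinarith
      have hH2 : H ^ 2 * (1 - r * α 0) ^ 2 ≤ r ^ 4 * (1 - α 0 ^ 2) ^ 2 := by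
        calc H ^ 2 * (1 - r * α 0) ^ 2 = (H ^ 2 * (1 - r * α 0)) * (1 - r * α 0) := by ring
          _ ≤ (r ^ 4 * A) * (1 - r * α 0) := mul_le_mul_of_nonneg_right hcH hD.le
          _ = r ^ 4 * (A * (1 - r * α 0)) := by ring
          _ ≤ _ := mul_le_mul_of_nonneg_left hA hr4
      have hP2 : P ^ 2 * (1 - r * α 0) ^ 2 ≤ r ^ 4 * (1 - α 0 ^ 2) ^ 2 +
          r ^ 4 * (α 0 ^ 2 - β 0 ^ 2) * (1 - r * α 0) / 4 := by
        calc P ^ 2 * (1 - r * α 0) ^ 2 = (P ^ 2 * (1 - r * α 0)) * (1 - r * α 0) := by ring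
          _ ≤ (r ^ 4 * A2) * (1 - r * α 0) := mul_le_mul_of_nonneg_right hcP hD.le
          _ ≤ (r ^ 4 * (A + (α 0 ^ 2 - β 0 ^ 2) / 4)) * (1 - r * α 0) := by
              apply mul_le_mul_of_nonneg_right _ hD.le
              exact mul_le_mul_of_nonneg_left hW hr4
          _ = r ^ 4 * (A * (1 - r * α 0)) + r ^ 4 * (α 0 ^ 2 - β 0 ^ 2) * (1 - r * α 0) / 4 := by
              ring
          _ ≤ _ := by
              have := mul_le_mul_of_nonneg_left hA hr4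
              linarith
      exact ⟨large_case1 hr0 hr1 hα1 hge hrm hH2,
        large_case2 hr0 hr1 hα1 hge (hβ0 0) hβα hm1 hm2 hrm hP2⟩
  obtain ⟨k1, k2⟩ := key
  have hle : ∑ n ∈ range N, (‖a n‖ + ‖b n‖) * r ^ n ≤
      ∑ n ∈ range (N + 2), (‖a n‖ + ‖b n‖) * r ^ n := by
    apply Finset.sum_le_sum_of_subset_of_nonneg (Finset.range_mono (by omega))
    intro i _ _
    positivity
  refine hle.trans ?_
  rw [Finset.sum_range_succ', Finset.sum_range_succ']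
  have e3 : ∑ n ∈ range N, (‖a (n + 1 + 1)‖ + ‖b (n + 1 + 1)‖) * r ^ (n + 1 + 1) =
      ∑ n ∈ range N, α (n + 1) * r ^ (n + 2) + k * ∑ n ∈ range N, β (n + 1) * r ^ (n + 2) := by
    rw [Finset.mul_sum, ← Finset.sum_add_distrib]
    apply Finset.sum_congr rfl
    intro n _
    rw [hα, hβ]
    simp only
    field_simp
  have e4 : (‖a (0 + 1)‖ + ‖b (0 + 1)‖) * r ^ (0 + 1) = r * α 0 + k * (r * β 0) := by
    rw [hα, hβ]
    simp only
    field_simp
    ring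
  rw [e3, e4, ha0, hb0]
  simp only [norm_zero, add_zero, zero_mul]
  have := mul_le_mul_of_nonneg_left k2 hk.le
  nlinarith

end Pool.Agent.X216.BH
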