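import Mathlib

open Finset

namespace Pool.Agent.X216.BH

lemma polyA (m R x : ℝ) (h1 : 1 / 2 ≤ m) (h2 : m ≤ 1) (hR : R = 93 / 200 * m + 103 / 400)
    (hx : x = (-m ^ 2 + 6 * m - 1) / 8) : 0 ≤ m ^ 2 * (1 - R) - (x * (1 - R) + x ^ 2 / 4) := by
  subst hR hx
  have hX : 0 ≤ m - 1 / 2 := by linarith
  have hY : 0 ≤ 1 - m := by linarith
  have key : m ^ 2 * (1 - (93 / 200 * m + 103 / 400)) - ((-m ^ 2 + 6 * m - 1) / 8 *
      (1 - (93 / 200 * m + 103 / 400)) + ((-m ^ 2 + 6 * m - 1) / 8) ^ 2 / 4) =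
      (407 / 6400 : ℝ) * (m - 1 / 2) ^ 0 * (1 - m) ^ 4 + (897 / 800 : ℝ) * (m - 1 / 2) ^ 1 * (1 - m) ^ 3 + (679 / 160 : ℝ) * (m - 1 / 2) ^ 2 * (1 - m) ^ 2 + (441 / 100 : ℝ) * (m - 1 / 2) ^ 3 * (1 - m) ^ 1 + (61 / 50 : ℝ) * (m - 1 / 2) ^ 4 * (1 - m) ^ 0 := by
    ring
  rw [key]
  positivity

lemma polyB (m R L x : ℝ) (h1 : 1 / 2 ≤ m) (h2 : m ≤ 1) (hR : R = 93 / 200 * m + 103 / 400)
    (hL : L = 12 / 25 * m + 11 / 50)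
    (hx : x = (-m ^ 2 + 6 * m - 1) / 8) :
    0 ≤ m ^ 2 * (1 - R) ^ 2 - x * ((1 - R + x / 4) ^ 2 - L / 4 * (1 - R) ^ 2) := by
  subst hR hx hL
  have hX : 0 ≤ m - 1 / 2 := by linarith
  have hY : 0 ≤ 1 - m := by linarith
  have key : m ^ 2 * (1 - (93 / 200 * m + 103 / 400)) ^ 2 - (-m ^ 2 + 6 * m - 1) / 8 *
      ((1 - (93 / 200 * m + 103 / 400) + (-m ^ 2 + 6 * m - 1) / 8 / 4) ^ 2 -
        (12 / 25 * m + 11 / 50) / 4 * (1 - (93 / 200 * m + 103 / 400)) ^ 2) =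
      (14867633 / 128000000 : ℝ) * (m - 1 / 2) ^ 0 * (1 - m) ^ 6 + (27584721 / 16000000 : ℝ) * (m - 1 / 2) ^ 1 * (1 - m) ^ 5 + (25039593 / 3200000 : ℝ) * (m - 1 / 2) ^ 2 * (1 - m) ^ 4 + (108346923 / 8000000 : ℝ) * (m - 1 / 2) ^ 3 * (1 - m) ^ 3 + (161691549 / 16000000 : ℝ) * (m - 1 / 2) ^ 4 * (1 - m) ^ 2 + (5909301 / 2000000 : ℝ) * (m - 1 / 2) ^ 5 * (1 - m) ^ 1 + (35087 / 200000 : ℝ) * (m - 1 / 2) ^ 6 * (1 - m) ^ 0 := by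
    ring
  rw [key]
  positivity

lemma polyL (m : ℝ) (h1 : 1 / 2 ≤ m) (h2 : m ≤ 1) :
    (12 / 25 * m + 11 / 50) ^ 2 ≤ (-m ^ 2 + 6 * m - 1) / 8 := by
  have hX : 0 ≤ m - 1 / 2 := by linarith
  have hY : 0 ≤ 1 - m := by linarith
  have key : (-m ^ 2 + 6 * m - 1) / 8 - (12 / 25 * m + 11 / 50) ^ 2 =
      (143 / 5000 : ℝ) * (m - 1 / 2) ^ 0 * (1 - m) ^ 2 + (53 / 125 : ℝ) * (m - 1 / 2) ^ 1 * (1 - m) ^ 1 + (1 / 25 : ℝ) * (m - 1 / 2) ^ 2 * (1 - m) ^ 0 := by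
    ring
  have h : 0 ≤ (-m ^ 2 + 6 * m - 1) / 8 - (12 / 25 * m + 11 / 50) ^ 2 := by
    rw [key]
    positivity
  linarith

lemma polyR (m : ℝ) : (-m ^ 2 + 6 * m - 1) / 8 ≤ (93 / 200 * m + 103 / 400) ^ 2 := by
  nlinarith [sq_nonneg (m - 748 / 1000), sq_nonneg m]

/-- the final numerical inequalities at the critical radius -/
lemma final_AB (m r : ℝ) (h1 : 1 / 2 ≤ m) (h2 : m ≤ 1) (hr0 : 0 ≤ r)
    (hr : r ^ 2 = (-m ^ 2 + 6 * m - 1) / 8) :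
    r ^ 2 + (r ^ 2) ^ 2 / (4 * (1 - r)) ≤ m ^ 2 ∧
    r ^ 2 * ((1 + r ^ 2 / (4 * (1 - r))) ^ 2 - r / 4) ≤ m ^ 2 := by
  obtain ⟨x, hx⟩ : ∃ x, x = r ^ 2 := ⟨_, rfl⟩
  obtain ⟨R, hR⟩ : ∃ R : ℝ, R = 93 / 200 * m + 103 / 400 := ⟨_, rfl⟩
  obtain ⟨L, hL⟩ : ∃ L : ℝ, L = 12 / 25 * m + 11 / 50 := ⟨_, rfl⟩
  have hxm : x = (-m ^ 2 + 6 * m - 1) / 8 := by rw [hx, hr]
  have hR1 : R < 1 := by rw [hR]; linarith
  have hR0 : 0 < R := by rw [hR]; linarith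
  have hL0 : 0 ≤ L := by rw [hL]; linarith
  have hrR : r ≤ R := by
    apply le_of_sq_le_sq _ hR0.le
    rw [hr, hR]
    exact polyR m
  have hLr : L ≤ r := by
    apply le_of_sq_le_sq _ hr0
    rw [hr, hL]
    exact polyL m h1 h2
  have hA := polyA m R x h1 h2 hR hxm
  have hB := polyB m R L x h1 h2 hR hL hxm
  have hx0 : 0 ≤ x := by rw [hx]; positivity
  have hD : 0 < 1 - R := by linarith
  have hDr : 1 - R ≤ 1 - r := by linarith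
  rw [← hx]
  have hw : x / (4 * (1 - r)) ≤ x / (4 * (1 - R)) := by
    apply div_le_div_of_nonneg_left hx0 (by linarith) (by linarith)
  have hw0 : 0 ≤ x / (4 * (1 - r)) := div_nonneg hx0 (by linarith)
  have hxw : x / (4 * (1 - R)) * (4 * (1 - R)) = x := by field_simp
  obtain ⟨v, hv⟩ : ∃ v, v = x / (4 * (1 - R)) := ⟨_, rfl⟩
  rw [← hv] at hw hxw
  constructor
  · have e1 : x + x ^ 2 / (4 * (1 - r)) = x + x * (x / (4 * (1 - r))) := by ring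
    rw [e1]
    have e2 : x * (x / (4 * (1 - r))) ≤ x * v := mul_le_mul_of_nonneg_left hw hx0
    have e3 : (x + x * v) * (1 - R) ≤ m ^ 2 * (1 - R) := by
      have : x * v * (1 - R) = x ^ 2 / 4 := by linear_combination (x / 4) * hxw
      nlinarith
    have e4 : x + x * v ≤ m ^ 2 := le_of_mul_le_mul_right e3 hD
    linarith
  · have e2 : (1 + x / (4 * (1 - r))) ^ 2 ≤ (1 + v) ^ 2 := by
      apply pow_le_pow_left₀ (by linarith)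
      linarith
    have e3 : x * ((1 + x / (4 * (1 - r))) ^ 2 - r / 4) ≤ x * ((1 + v) ^ 2 - L / 4) := by
      apply mul_le_mul_of_nonneg_left _ hx0
      linarith
    refine e3.trans ?_
    have e4 : (x * ((1 + v) ^ 2 - L / 4)) * (1 - R) ^ 2 ≤ m ^ 2 * (1 - R) ^ 2 := by
      have : (1 + v) * (1 - R) = 1 - R + x / 4 := by linear_combination (1 / 4) * hxw
      have e5 : (x * ((1 + v) ^ 2 - L / 4)) * (1 - R) ^ 2 =
          x * (((1 + v) * (1 - R)) ^ 2 - L / 4 * (1 - R) ^ 2) := by ring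
      rw [e5, this]
      linarith
    exact le_of_mul_le_mul_right e4 (by positivity)

end Pool.Agent.X216.BH
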