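import Mathlib

open Finset Filter Topology Metric

namespace Pool.Agent.X216.BH

/-- `f` is the sum of the power series with coefficients `a` on the unit disc. -/
def IsPS (a : ℕ → ℂ) (f : ℂ → ℂ) : Prop :=
  ∀ z : ℂ, ‖z‖ < 1 → HasSum (fun n => a n * z ^ n) (f z)

lemma IsPS.summable_norm {a : ℕ → ℂ} {f : ℂ → ℂ} (h : IsPS a f) {ρ : ℝ} (h0 : 0 ≤ ρ)
    (h1 : ρ < 1) : Summable (fun n => ‖a n‖ * ρ ^ n) := by
  have := (h (ρ : ℂ) (by simp [abs_of_nonneg h0, h1])).summable.norm
  refine this.congr fun n => ?_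
  simp [abs_of_nonneg h0]

lemma exists_isPS {f : ℂ → ℂ} (hf : DifferentiableOn ℂ f (Metric.ball (0 : ℂ) 1)) :
    IsPS (fun n => ((n.factorial : ℂ))⁻¹ * iteratedDeriv n f 0) f := by
  intro z hz
  have := Complex.hasSum_taylorSeries_on_ball hf (z := z) (by simpa using hz)
  have h2 : (fun n : ℕ => ((n.factorial : ℂ))⁻¹ • (z - 0) ^ n • iteratedDeriv n f 0)
      = fun n : ℕ => ((n.factorial : ℂ))⁻¹ * iteratedDeriv n f 0 * z ^ n := by
    funext n
    simp only [smul_eq_mul, sub_zero]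
    ring
  rw [h2] at this
  exact this

lemma avg_re (Q : ℂ → ℂ) (r : ℝ) (hc : ContinuousOn Q (sphere 0 |r|))
    (hQ : DiffContOnCl ℂ Q (ball 0 |r|)) :
    Real.circleAverage (fun z => (Q z).re) 0 r = (Q 0).re := by
  have hi : CircleIntegrable Q 0 r := hc.circleIntegrable'
  have h1 := hQ.circleAverage
  have h2 := Complex.reCLM.circleAverage_comp_comm hi
  rw [h1] at h2
  exact h2

lemma circ_int_cont (f : ℂ → ℝ) (hf : Continuous f) (r : ℝ) : CircleIntegrable f 0 r :=
  ContinuousOn.circleIntegrable' hf.continuousOn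

lemma avg_add3 (f g : ℂ → ℝ) (hf : Continuous f) (hg : Continuous g) (c r : ℝ) :
    Real.circleAverage (fun z => f z + g z + c) 0 r
      = Real.circleAverage f 0 r + Real.circleAverage g 0 r + c := by
  have h1 := Real.circleAverage_fun_add (circ_int_cont _ (hf.add hg) r)
    (circ_int_cont (fun _ => c) continuous_const r)
  have h2 := Real.circleAverage_fun_add (circ_int_cont _ hf r) (circ_int_cont _ hg r)
  rw [Real.circleAverage_const] at h1
  simp only [Pi.add_apply] at h1 h2 ⊢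
  rw [h1, ← h2]
  rfl

lemma parseval_fin (p : ℕ → ℂ) (r : ℝ) (N : ℕ) :
    Real.circleAverage (fun z => ‖∑ n ∈ range N, p n * z ^ n‖ ^ 2) 0 r
      = ∑ n ∈ range N, ‖p n‖ ^ 2 * (r ^ 2) ^ n := by
  induction N with
  | zero =>
    simp only [Finset.range_zero, Finset.sum_empty, norm_zero]
    rw [Real.circleAverage_const]
    simp
  | succ N ih =>
    rw [Finset.sum_range_succ (n := N) (f := fun n => ‖p n‖ ^ 2 * (r ^ 2) ^ n), ← ih]
    set Q : ℂ → ℂ := fun z => p N * ∑ n ∈ range N, (starRingEnd ℂ) (p n) * ((r : ℂ) ^ 2) ^ n * z ^ (N - n) with hQ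
    have hQd : Differentiable ℂ Q := by
      rw [hQ]
      fun_prop
    have hQ0 : Q 0 = 0 := by
      rw [hQ]
      simp only
      rw [Finset.sum_eq_zero, mul_zero]
      intro n hn
      have : N - n ≠ 0 := by
        have := Finset.mem_range.mp hn
        omega
      rw [zero_pow this, mul_zero]
    have havg : Real.circleAverage (fun z => (Q z).re) 0 r = 0 := by
      rw [avg_re Q r hQd.continuous.continuousOn hQd.diffContOnCl, hQ0]
      simp
    have hpt : Set.EqOn (fun z : ℂ => ‖∑ n ∈ range (N + 1), p n * z ^ n‖ ^ 2)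
        (fun z => (‖∑ n ∈ range N, p n * z ^ n‖ ^ 2 + 2 * (Q z).re) + ‖p N‖ ^ 2 * (r ^ 2) ^ N)
        (sphere 0 |r|) := by
      intro z hz
      have hz1 : ‖z‖ = |r| := by simpa using hz
      have hz2 : (starRingEnd ℂ) z * z = (r : ℂ) ^ 2 := by
        rw [Complex.conj_mul', hz1]
        rw [← Complex.ofReal_pow, sq_abs, Complex.ofReal_pow]
      simp only
      rw [Finset.sum_range_succ]
      have h1 : (starRingEnd ℂ) (∑ n ∈ range N, p n * z ^ n) * (p N * z ^ N) = Q z := by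
        rw [hQ]
        simp only
        rw [map_sum, Finset.sum_mul, Finset.mul_sum]
        apply Finset.sum_congr rfl
        intro n hn
        have hn' : n < N := Finset.mem_range.mp hn
        rw [map_mul, map_pow, ← hz2, mul_pow]
        have : z ^ N = z ^ n * z ^ (N - n) := by
          rw [← pow_add]
          congr 1
          omega
        rw [this]
        ring
      have h2 : ∀ x y : ℂ, ‖x + y‖ ^ 2 = ‖x‖ ^ 2 + 2 * ((starRingEnd ℂ) x * y).re + ‖y‖ ^ 2 := by
        intro x y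
        simp only [← Complex.normSq_eq_norm_sq, Complex.normSq_apply, Complex.mul_re,
          Complex.conj_re, Complex.conj_im, Complex.add_re, Complex.add_im]
        ring
      rw [h2, h1, norm_mul, norm_pow, hz1, mul_pow, ← pow_mul, mul_comm N 2, pow_mul, sq_abs]
    rw [Real.circleAverage_congr_sphere hpt]
    have hc1 : Continuous (fun z : ℂ => ‖∑ n ∈ range N, p n * z ^ n‖ ^ 2) := by fun_prop
    have hc2 : Continuous (fun z : ℂ => 2 * (Q z).re) := by
      have := hQd.continuous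
      fun_prop
    rw [avg_add3 _ _ hc1 hc2]
    have : Real.circleAverage (fun z : ℂ => 2 * (Q z).re) 0 r = 0 := by
      have h := Real.circleAverage_fun_smul (a := (2 : ℝ)) (f := fun z : ℂ => (Q z).re) (c := 0) (R := r)
      simp only [smul_eq_mul] at h
      rw [h, havg]
      simp
    rw [this]
    ring

/-- Parseval on a circle inside the unit disc. -/
lemma parseval {a : ℕ → ℂ} {f : ℂ → ℂ} (h : IsPS a f) {r : ℝ} (h0 : 0 ≤ r) (h1 : r < 1) :
    Tendsto (fun N : ℕ => ∑ n ∈ range N, ‖a n‖ ^ 2 * (r ^ 2) ^ n) atTop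
      (𝓝 (Real.circleAverage (fun z => ‖f z‖ ^ 2) 0 r)) := by
  have hmem : ∀ θ : ℝ, ‖circleMap 0 r θ‖ = r := by
    intro θ
    rw [norm_circleMap_zero, abs_of_nonneg h0]
  have hs := h.summable_norm h0 h1
  have key : Tendsto (fun N : ℕ => Real.circleAverage (fun z => ‖∑ n ∈ range N, a n * z ^ n‖ ^ 2) 0 r)
      atTop (𝓝 (Real.circleAverage (fun z => ‖f z‖ ^ 2) 0 r)) := by
    unfold Real.circleAverage
    apply Tendsto.const_smul
    apply intervalIntegral.tendsto_integral_filter_of_dominated_convergence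
      (fun _ => (∑' n, ‖a n‖ * r ^ n) ^ 2)
    · filter_upwards with N
      apply Continuous.aestronglyMeasurable
      fun_prop
    · filter_upwards with N
      filter_upwards with θ _
      rw [Real.norm_of_nonneg (by positivity)]
      apply pow_le_pow_left₀ (norm_nonneg _)
      calc ‖∑ n ∈ range N, a n * circleMap 0 r θ ^ n‖ ≤ ∑ n ∈ range N, ‖a n * circleMap 0 r θ ^ n‖ :=
            norm_sum_le _ _
        _ = ∑ n ∈ range N, ‖a n‖ * r ^ n := by
            apply Finset.sum_congr rfl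
            intro n _
            rw [norm_mul, norm_pow, hmem]
        _ ≤ _ := hs.sum_le_tsum _ (fun n _ => by positivity)
    · exact intervalIntegrable_const
    · filter_upwards with θ _
      have hs := h (circleMap 0 r θ) (by rw [hmem]; exact h1)
      exact (hs.tendsto_sum_nat.norm).pow 2
  refine key.congr ?_
  intro N
  exact parseval_fin a r N

lemma IsPS.diff {a : ℕ → ℂ} {f : ℂ → ℂ} (h : IsPS a f) :
    DifferentiableOn ℂ f (Metric.ball (0 : ℂ) 1) := by
  intro z hz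
  have hz' : ‖z‖ < 1 := by simpa using hz
  obtain ⟨ρ, hρ1, hρ2⟩ := exists_between hz'
  have hρ0 : 0 ≤ ρ := (norm_nonneg z).trans hρ1.le
  have hd : DifferentiableOn ℂ (fun w => ∑' n, a n * w ^ n) (Metric.ball (0 : ℂ) ρ) := by
    refine Complex.differentiableOn_tsum_of_summable_norm (h.summable_norm hρ0 hρ2)
      (fun n => by fun_prop) Metric.isOpen_ball ?_
    intro n w hw
    have hw' : ‖w‖ < ρ := by simpa using hw
    rw [norm_mul, norm_pow]
    gcongr
  have hz2 : z ∈ Metric.ball (0 : ℂ) ρ := by simpa using hρ1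
  have hd2 := (hd z hz2).differentiableAt (Metric.isOpen_ball.mem_nhds hz2)
  refine (hd2.congr_of_eventuallyEq ?_).differentiableWithinAt
  filter_upwards [Metric.isOpen_ball.mem_nhds hz] with w hw
  exact (h w (by simpa using hw)).tsum_eq.symm

lemma IsPS.circ_int {a : ℕ → ℂ} {f : ℂ → ℂ} (h : IsPS a f) {r : ℝ} (h0 : 0 ≤ r) (h1 : r < 1) :
    CircleIntegrable (fun z => ‖f z‖ ^ 2) 0 r := by
  apply ContinuousOn.circleIntegrable h0
  have hc : ContinuousOn f (sphere (0 : ℂ) r) := h.diff.continuousOn.mono (by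
    intro z hz
    have : ‖z‖ = r := by simpa using hz
    simpa [this] using h1)
  exact hc.norm.pow 2

/-- comparison on a circle -/
lemma ps_mono {a b : ℕ → ℂ} {f g : ℂ → ℂ} (hf : IsPS a f) (hg : IsPS b g) {r A B : ℝ}
    (h0 : 0 ≤ r) (h1 : r < 1) (hfg : ∀ z : ℂ, ‖z‖ = r → ‖f z‖ ≤ ‖g z‖)
    (hA : Tendsto (fun N : ℕ => ∑ n ∈ range N, ‖a n‖ ^ 2 * (r ^ 2) ^ n) atTop (𝓝 A))
    (hB : Tendsto (fun N : ℕ => ∑ n ∈ range N, ‖b n‖ ^ 2 * (r ^ 2) ^ n) atTop (𝓝 B)) :
    A ≤ B := by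
  rw [tendsto_nhds_unique hA (parseval hf h0 h1), tendsto_nhds_unique hB (parseval hg h0 h1)]
  apply Real.circleAverage_mono (hf.circ_int h0 h1) (hg.circ_int h0 h1)
  intro z hz
  have hz' : ‖z‖ = r := by simpa [abs_of_nonneg h0] using hz
  exact pow_le_pow_left₀ (norm_nonneg _) (hfg z hz') 2

lemma ps_le_const {a : ℕ → ℂ} {f : ℂ → ℂ} (hf : IsPS a f) {r : ℝ}
    (h0 : 0 ≤ r) (h1 : r < 1) {M : ℝ} (hfg : ∀ z : ℂ, ‖z‖ = r → ‖f z‖ ≤ M) (N : ℕ) :
    ∑ n ∈ range N, ‖a n‖ ^ 2 * (r ^ 2) ^ n ≤ M ^ 2 := by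
  have hmono : Monotone (fun N : ℕ => ∑ n ∈ range N, ‖a n‖ ^ 2 * (r ^ 2) ^ n) := by
    intro m n hmn
    apply Finset.sum_le_sum_of_subset_of_nonneg (Finset.range_mono hmn)
    intro i _ _
    positivity
  have h2 := hmono.ge_of_tendsto (parseval hf h0 h1) N
  refine h2.trans ?_
  have h3 : Real.circleAverage (fun _ : ℂ => M ^ 2) 0 r = M ^ 2 := Real.circleAverage_const _ _ _
  rw [← h3]
  apply Real.circleAverage_mono (hf.circ_int h0 h1) (circ_int_cont _ continuous_const r)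
  intro z hz
  have hz' : ‖z‖ = r := by simpa [abs_of_nonneg h0] using hz
  exact pow_le_pow_left₀ (norm_nonneg _) (hfg z hz') 2

lemma summable_sq {a : ℕ → ℂ} {f : ℂ → ℂ} (h : IsPS a f) {r : ℝ} (h0 : 0 ≤ r) (h1 : r < 1) :
    Summable (fun n : ℕ => ‖a n‖ ^ 2 * (r ^ 2) ^ n) := by
  have hs := h.summable_norm h0 h1
  have ht := hs.tendsto_atTop_zero
  have hev : ∀ᶠ n in atTop, ‖a n‖ * r ^ n < 1 := ht.eventually_lt_const one_pos
  apply Summable.of_norm_bounded_eventually_nat hs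
  filter_upwards [hev] with n hn
  rw [Real.norm_of_nonneg (by positivity)]
  have h2 : ‖a n‖ ^ 2 * (r ^ 2) ^ n = (‖a n‖ * r ^ n) ^ 2 := by
    rw [mul_pow, ← pow_mul, ← pow_mul, mul_comm]
    ring
  rw [h2]
  have h3 : 0 ≤ ‖a n‖ * r ^ n := by positivity
  nlinarith

/-- uniqueness of power series -/
lemma IsPS.unique {a b : ℕ → ℂ} {f : ℂ → ℂ} (ha : IsPS a f) (hb : IsPS b f) : a = b := by
  have hd : IsPS (fun n => a n - b n) (fun _ => 0) := by
    intro z hz
    have := (ha z hz).sub (hb z hz)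
    simpa [sub_mul] using this
  funext n
  have h := ps_le_const hd (r := 1 / 2) (by norm_num) (by norm_num) (M := 0)
    (fun z _ => by simp) (n + 1)
  have h2 : ‖a n - b n‖ ^ 2 * (((1 : ℝ) / 2) ^ 2) ^ n ≤
      ∑ n ∈ range (n + 1), ‖a n - b n‖ ^ 2 * (((1 : ℝ) / 2) ^ 2) ^ n :=
    Finset.single_le_sum (f := fun n => ‖a n - b n‖ ^ 2 * (((1 : ℝ) / 2) ^ 2) ^ n)
      (fun i _ => by positivity) (Finset.mem_range.mpr (Nat.lt_succ_self n))
  have h3 : ‖a n - b n‖ ^ 2 * (((1 : ℝ) / 2) ^ 2) ^ n ≤ 0 := h2.trans (by simpa using h)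
  have h4 : 0 < (((1 : ℝ) / 2) ^ 2) ^ n := by positivity
  have h5 : ‖a n - b n‖ ^ 2 ≤ 0 := by
    by_contra hc
    push Not at hc
    have := mul_pos hc h4
    linarith
  have h6 : ‖a n - b n‖ = 0 := by
    have : 0 ≤ ‖a n - b n‖ := norm_nonneg _
    nlinarith
  exact sub_eq_zero.mp (norm_eq_zero.mp h6)

/-- product of power series -/
lemma IsPS.mul {a b : ℕ → ℂ} {f g : ℂ → ℂ} (ha : IsPS a f) (hb : IsPS b g) :
    IsPS (fun n => ∑ p ∈ antidiagonal n, a p.1 * b p.2) (fun z => f z * g z) := by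
  intro z hz
  have hA : Summable (fun n => ‖a n * z ^ n‖) := (ha z hz).summable.norm
  have hB : Summable (fun n => ‖b n * z ^ n‖) := (hb z hz).summable.norm
  have h1 := tsum_mul_tsum_eq_tsum_sum_antidiagonal_of_summable_norm hA hB
  have h2 := summable_norm_sum_mul_antidiagonal_of_summable_norm hA hB
  rw [(ha z hz).tsum_eq, (hb z hz).tsum_eq] at h1
  show HasSum (fun n => (∑ p ∈ antidiagonal n, a p.1 * b p.2) * z ^ n) (f z * g z)
  rw [h1]
  have h3 : ∀ n, ∑ kl ∈ antidiagonal n, a kl.1 * z ^ kl.1 * (b kl.2 * z ^ kl.2)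
      = (∑ p ∈ antidiagonal n, a p.1 * b p.2) * z ^ n := by
    intro n
    rw [Finset.sum_mul]
    apply Finset.sum_congr rfl
    intro p hp
    have : p.1 + p.2 = n := by simpa using hp
    rw [← this, pow_add]
    ring
  simp only [h3] at h2 ⊢
  exact h2.of_norm.hasSum

/-- the derivative -/
lemma IsPS.deriv {a : ℕ → ℂ} {f : ℂ → ℂ} (ha : IsPS a f) :
    IsPS (fun n => ((n : ℂ) + 1) * a (n + 1)) (deriv f) := by
  have h1 := exists_isPS ha.diff
  have h2 := IsPS.unique ha h1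
  have h3 : DifferentiableOn ℂ (_root_.deriv f) (Metric.ball (0 : ℂ) 1) :=
    ha.diff.deriv Metric.isOpen_ball
  have h4 := exists_isPS h3
  have h5 : (fun n : ℕ => ((n : ℂ) + 1) * a (n + 1))
      = (fun n => ((n.factorial : ℂ))⁻¹ * iteratedDeriv n (_root_.deriv f) 0) := by
    funext n
    rw [h2]
    simp only
    rw [iteratedDeriv_succ', Nat.factorial_succ]
    push_cast
    have hn : ((n : ℂ) + 1) ≠ 0 := by exact_mod_cast Nat.succ_ne_zero n
    have hf : ((n.factorial : ℕ) : ℂ) ≠ 0 := by exact_mod_cast n.factorial_ne_zero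
    field_simp
  rw [h5]
  exact h4

end Pool.Agent.X216.BH
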