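import Pool.Agent.X216.BH.PS

open Finset Filter Topology Metric

namespace Pool.Agent.X216.BH

/-- division by a nonzero majorant -/
lemma exists_quot {F G : ℂ → ℂ} (hF : DifferentiableOn ℂ F (ball (0 : ℂ) 1))
    (hG : DifferentiableOn ℂ G (ball (0 : ℂ) 1)) (hFG : ∀ z : ℂ, ‖z‖ < 1 → ‖G z‖ ≤ ‖F z‖)
    (hne : ∃ z : ℂ, ‖z‖ < 1 ∧ F z ≠ 0) :
    ∃ ω : ℂ → ℂ, DifferentiableOn ℂ ω (ball (0 : ℂ) 1) ∧ (∀ z : ℂ, ‖z‖ < 1 → ‖ω z‖ ≤ 1) ∧
      ∀ z : ℂ, ‖z‖ < 1 → ω z * F z = G z := by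
  have hFan : AnalyticOnNhd ℂ F (ball (0 : ℂ) 1) := hF.analyticOnNhd isOpen_ball
  have hne' : ∀ z ∈ ball (0 : ℂ) 1, ∀ᶠ w in 𝓝[≠] z, F w ≠ 0 := by
    intro z hz
    rcases (hFan z hz).eventually_eq_zero_or_eventually_ne_zero with h | h
    · exfalso
      obtain ⟨w, hw, hFw⟩ := hne
      have := hFan.eqOn_zero_of_preconnected_of_eventuallyEq_zero
        (convex_ball (0 : ℂ) 1).isPreconnected hz h
      exact hFw (this (by simpa using hw))
    · exact h
  obtain ⟨q, hq⟩ : ∃ q : ℂ → ℂ, q = fun w => G w / F w := ⟨_, rfl⟩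
  have hqd : ∀ w ∈ ball (0 : ℂ) 1, F w ≠ 0 → DifferentiableAt ℂ q w := by
    intro w hw hFw
    rw [hq]
    exact ((hG w hw).differentiableAt (isOpen_ball.mem_nhds hw)).div
      ((hF w hw).differentiableAt (isOpen_ball.mem_nhds hw)) hFw
  have hq1 : ∀ w ∈ ball (0 : ℂ) 1, ‖q w‖ ≤ 1 := by
    intro w hw
    rw [hq]
    simp only [norm_div]
    exact div_le_one_of_le₀ (hFG w (by simpa using hw)) (norm_nonneg _)
  have hloc : ∀ z ∈ ball (0 : ℂ) 1, ∃ s ∈ 𝓝 z, s ⊆ ball (0 : ℂ) 1 ∧ ∀ w ∈ s, w ≠ z → F w ≠ 0 := by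
    intro z hz
    have h1 := hne' z hz
    rw [eventually_nhdsWithin_iff] at h1
    have h2 : ∀ᶠ w in 𝓝 z, w ∈ ball (0 : ℂ) 1 := isOpen_ball.mem_nhds hz
    refine ⟨{w | w ∈ ball (0 : ℂ) 1 ∧ (w ∈ ({z} : Set ℂ)ᶜ → F w ≠ 0)}, h2.and h1, ?_, ?_⟩
    · intro w hw
      exact hw.1
    · intro w hw hwz
      exact hw.2 (by simpa using hwz)
  have hupd : ∀ z ∈ ball (0 : ℂ) 1, ∀ s ∈ 𝓝 z, s ⊆ ball (0 : ℂ) 1 → (∀ w ∈ s, w ≠ z → F w ≠ 0) →
      DifferentiableOn ℂ (Function.update q z (limUnder (𝓝[≠] z) q)) s := by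
    intro z hz s hs hsub hFs
    apply Complex.differentiableOn_update_limUnder_of_bddAbove hs
    · intro w hw
      exact (hqd w (hsub hw.1) (hFs w hw.1 (by simpa using hw.2))).differentiableWithinAt
    · refine ⟨1, ?_⟩
      rintro _ ⟨w, hw, rfl⟩
      exact hq1 w (hsub hw.1)
  have hlim : ∀ z ∈ ball (0 : ℂ) 1, Tendsto q (𝓝[≠] z) (𝓝 (limUnder (𝓝[≠] z) q)) := by
    intro z hz
    obtain ⟨s, hs, hsub, hFs⟩ := hloc z hz
    exact continuousAt_update_same.1 ((hupd z hz s hs hsub hFs).differentiableAt hs).continuousAt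
  have hev1 : ∀ z ∈ ball (0 : ℂ) 1, ∀ᶠ w in 𝓝[≠] z, w ∈ ball (0 : ℂ) 1 := by
    intro z hz
    have h : ∀ᶠ w in 𝓝 z, w ∈ ball (0 : ℂ) 1 := isOpen_ball.mem_nhds hz
    exact h.filter_mono nhdsWithin_le_nhds
  refine ⟨fun z => limUnder (𝓝[≠] z) q, ?_, ?_, ?_⟩
  · intro z hz
    obtain ⟨s, hs, hsub, hFs⟩ := hloc z hz
    have h1 := (hupd z hz s hs hsub hFs).differentiableAt hs
    refine (h1.congr_of_eventuallyEq ?_).differentiableWithinAt
    filter_upwards [hs] with w hw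
    by_cases hwz : w = z
    · subst hwz
      simp
    · rw [Function.update_of_ne hwz]
      have h2 := (hqd w (hsub hw) (hFs w hw hwz)).continuousAt
      exact (h2.tendsto.mono_left nhdsWithin_le_nhds).limUnder_eq
  · intro z hz
    have hz' : z ∈ ball (0 : ℂ) 1 := by simpa using hz
    apply le_of_tendsto (hlim z hz').norm
    filter_upwards [hev1 z hz'] with w hw
    exact hq1 w hw
  · intro z hz
    have hz' : z ∈ ball (0 : ℂ) 1 := by simpa using hz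
    have hcF : Tendsto F (𝓝[≠] z) (𝓝 (F z)) :=
      ((hF z hz').differentiableAt (isOpen_ball.mem_nhds hz')).continuousAt.tendsto.mono_left
        nhdsWithin_le_nhds
    have hcG : Tendsto G (𝓝[≠] z) (𝓝 (G z)) :=
      ((hG z hz').differentiableAt (isOpen_ball.mem_nhds hz')).continuousAt.tendsto.mono_left
        nhdsWithin_le_nhds
    have h1 := (hlim z hz').mul hcF
    refine tendsto_nhds_unique (h1.congr' ?_) hcG
    filter_upwards [hne' z hz'] with w hw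
    rw [hq]
    field_simp

lemma close_one (f : ℝ → ℝ) (hf : Continuous f) (C : ℝ) (h : ∀ r, 0 ≤ r → r < 1 → f r ≤ C) :
    f 1 ≤ C := by
  have h1 : Tendsto (fun n : ℕ => (1 : ℝ) - 1 / ((n : ℝ) + 1)) atTop (𝓝 (1 - 0)) :=
    tendsto_const_nhds.sub tendsto_one_div_add_atTop_nhds_zero_nat
  rw [sub_zero] at h1
  have h2 := (hf.tendsto 1).comp h1
  apply le_of_tendsto h2
  filter_upwards with n
  have hn : (0 : ℝ) < (n : ℝ) + 1 := by positivity
  have hn1 : 1 / ((n : ℝ) + 1) ≤ 1 := by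
    rw [div_le_one hn]
    have : (0 : ℝ) ≤ n := Nat.cast_nonneg n
    linarith
  apply h
  · linarith
  · have : 0 < 1 / ((n : ℝ) + 1) := by positivity
    linarith

lemma isPS_trunc (a : ℕ → ℂ) (N : ℕ) :
    IsPS (fun n => if n < N then a n else 0) (fun z => ∑ n ∈ range N, a n * z ^ n) := by
  intro z _
  have h : HasSum (fun n => (if n < N then a n else 0) * z ^ n)
      (∑ n ∈ range N, (if n < N then a n else 0) * z ^ n) := by
    apply hasSum_sum_of_ne_finset_zero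
    intro n hn
    have : ¬ n < N := by simpa using hn
    simp [this]
  have h2 : ∑ n ∈ range N, (if n < N then a n else 0) * z ^ n = ∑ n ∈ range N, a n * z ^ n := by
    apply Finset.sum_congr rfl
    intro n hn
    have : n < N := by simpa using hn
    simp [this]
  rw [h2] at h
  exact h

/-- Rogosinski's inequality for quasi-subordinate (majorized) functions -/
lemma rogosinski {F G : ℂ → ℂ} {a b : ℕ → ℂ} (ha : IsPS a F) (hb : IsPS b G)
    (hFG : ∀ z : ℂ, ‖z‖ < 1 → ‖G z‖ ≤ ‖F z‖) (N : ℕ) :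
    ∑ n ∈ range N, ‖b n‖ ^ 2 ≤ ∑ n ∈ range N, ‖a n‖ ^ 2 := by
  by_cases hne : ∃ z : ℂ, ‖z‖ < 1 ∧ F z ≠ 0
  · obtain ⟨ω, hωd, hω1, hωF⟩ := exists_quot ha.diff hb.diff hFG hne
    obtain ⟨w, hw⟩ : ∃ w, IsPS w ω := ⟨_, exists_isPS hωd⟩
    have hP := isPS_trunc a N
    have hωP := hw.mul hP
    have hωF' := hw.mul ha
    have hb' : IsPS (fun n => ∑ p ∈ antidiagonal n, w p.1 * a p.2) G := by
      intro z hz
      have := hωF' z hz
      rw [← hωF z hz]
      exact this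
    have hbb := hb.unique hb'
    obtain ⟨c, hc⟩ : ∃ c : ℕ → ℂ, c = fun n => ∑ p ∈ antidiagonal n, w p.1 * (if p.2 < N then a p.2 else 0) :=
      ⟨_, rfl⟩
    have hωP' : IsPS c (fun z => ω z * ∑ n ∈ range N, a n * z ^ n) := by
      rw [hc]
      exact hωP
    have hcb : ∀ n < N, c n = b n := by
      intro n hn
      rw [hc, hbb]
      simp only
      apply Finset.sum_congr rfl
      intro p hp
      have h1 : p.1 + p.2 = n := by simpa using hp
      have h2 : p.2 < N := by omega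
      rw [if_pos h2]
    have hmain : ∀ r : ℝ, 0 ≤ r → r < 1 → ∑ n ∈ range N, ‖b n‖ ^ 2 * (r ^ 2) ^ n ≤
        ∑ n ∈ range N, ‖a n‖ ^ 2 := by
      intro r h0 h1
      have hr2 : r ^ 2 ≤ 1 := by nlinarith
      have hT1 := parseval hωP' h0 h1
      have hT2 := parseval hP h0 h1
      have hle := ps_mono hωP' hP h0 h1 (by
        intro z hz
        rw [norm_mul]
        have : ‖ω z‖ ≤ 1 := hω1 z (by rw [hz]; exact h1)
        exact mul_le_of_le_one_left (norm_nonneg _) this) hT1 hT2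
      have hmono : Monotone (fun M : ℕ => ∑ n ∈ range M, ‖c n‖ ^ 2 * (r ^ 2) ^ n) := by
        intro m n hmn
        apply Finset.sum_le_sum_of_subset_of_nonneg (Finset.range_mono hmn)
        intro i _ _
        positivity
      have h2 := hmono.ge_of_tendsto hT1 N
      have h3 : ∑ n ∈ range N, ‖c n‖ ^ 2 * (r ^ 2) ^ n = ∑ n ∈ range N, ‖b n‖ ^ 2 * (r ^ 2) ^ n := by
        apply Finset.sum_congr rfl
        intro n hn
        rw [hcb n (by simpa using hn)]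
      have h4 : ∀ M, ∑ n ∈ range M, ‖(if n < N then a n else 0)‖ ^ 2 * (r ^ 2) ^ n ≤
          ∑ n ∈ range N, ‖a n‖ ^ 2 := by
        intro M
        calc ∑ n ∈ range M, ‖(if n < N then a n else 0)‖ ^ 2 * (r ^ 2) ^ n
            ≤ ∑ n ∈ range M, (if n < N then ‖a n‖ ^ 2 else 0) := by
              apply Finset.sum_le_sum
              intro n _
              have h5 : (r ^ 2) ^ n ≤ 1 := pow_le_one₀ (by positivity) hr2
              split_ifs
              · exact mul_le_of_le_one_right (by positivity) h5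
              · simp
          _ = ∑ n ∈ (range M).filter (fun n => n < N), ‖a n‖ ^ 2 := by
              rw [Finset.sum_filter]
          _ ≤ ∑ n ∈ range N, ‖a n‖ ^ 2 := by
              apply Finset.sum_le_sum_of_subset_of_nonneg
              · intro n hn
                have := (Finset.mem_filter.mp hn).2
                simpa using this
              · intro i _ _
                positivity
      have h5 := le_of_tendsto' hT2 h4
      rw [← h3]
      linarith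
    have hf : Continuous (fun r : ℝ => ∑ n ∈ range N, ‖b n‖ ^ 2 * (r ^ 2) ^ n) := by fun_prop
    have := close_one _ hf _ hmain
    simpa using this
  · push Not at hne
    have hG0 : IsPS (fun _ => 0) G := by
      intro z hz
      have h1 := hFG z hz
      rw [hne z hz, norm_zero] at h1
      have h2 : G z = 0 := norm_eq_zero.mp (le_antisymm h1 (norm_nonneg _))
      rw [h2]
      simp
    have hb0 := hb.unique hG0
    rw [hb0]
    apply Finset.sum_le_sum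
    intro i _
    have : (0 : ℝ) ≤ ‖a i‖ ^ 2 := by positivity
    simpa using this

lemma schwarz_pick {B : ℂ → ℂ} (hB : DifferentiableOn ℂ B (ball (0 : ℂ) 1))
    (h1 : ∀ z : ℂ, ‖z‖ < 1 → ‖B z‖ ≤ 1) (h0 : ‖B 0‖ < 1) :
    ∀ z : ℂ, ‖z‖ < 1 → ‖B z - B 0‖ ≤ ‖z‖ * ‖1 - (starRingEnd ℂ) (B 0) * B z‖ := by
  obtain ⟨b, hb⟩ : ∃ b, b = B 0 := ⟨_, rfl⟩
  rw [← hb] at h0 ⊢
  have hlt : ∀ z : ℂ, ‖z‖ < 1 → ‖(starRingEnd ℂ) b * B z‖ < 1 := by
    intro z hz
    rw [norm_mul, RCLike.norm_conj]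
    have := h1 z hz
    have h2 := norm_nonneg b
    nlinarith [norm_nonneg (B z)]
  have hne : ∀ z : ℂ, ‖z‖ < 1 → 1 - (starRingEnd ℂ) b * B z ≠ 0 := by
    intro z hz hc
    have h2 := hlt z hz
    rw [← sub_eq_zero.mp hc] at h2
    simp at h2
  have hsq : ∀ z : ℂ, ‖z‖ < 1 → ‖B z - b‖ ≤ ‖1 - (starRingEnd ℂ) b * B z‖ := by
    intro z hz
    have h2 : ‖1 - (starRingEnd ℂ) b * B z‖ ^ 2 - ‖B z - b‖ ^ 2 = (1 - ‖b‖ ^ 2) * (1 - ‖B z‖ ^ 2) := by
      simp only [← Complex.normSq_eq_norm_sq, Complex.normSq_apply, Complex.mul_re, Complex.mul_im,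
          Complex.conj_re, Complex.conj_im, Complex.sub_re, Complex.sub_im, Complex.one_re,
          Complex.one_im]
      ring
    have h3 : 0 ≤ (1 - ‖b‖ ^ 2) * (1 - ‖B z‖ ^ 2) := by
      have h4 := h1 z hz
      have h5 := norm_nonneg b
      have h6 := norm_nonneg (B z)
      apply mul_nonneg <;> nlinarith
    have h4 : ‖B z - b‖ ^ 2 ≤ ‖1 - (starRingEnd ℂ) b * B z‖ ^ 2 := by linarith
    exact le_of_sq_le_sq h4 (norm_nonneg _)
  intro z hz
  have hd : DifferentiableOn ℂ (fun z => (B z - b) / (1 - (starRingEnd ℂ) b * B z)) (ball (0 : ℂ) 1) := by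
    apply DifferentiableOn.div (hB.sub_const b) ((differentiableOn_const 1).sub
      ((differentiableOn_const _).mul hB))
    intro z hz
    exact hne z (by simpa using hz)
  have hmaps : Set.MapsTo (fun z => (B z - b) / (1 - (starRingEnd ℂ) b * B z)) (ball (0 : ℂ) 1)
      (closedBall 0 1) := by
    intro z hz
    have hz' : ‖z‖ < 1 := by simpa using hz
    simp only [mem_closedBall_zero_iff, norm_div]
    exact div_le_one_of_le₀ (hsq z hz') (norm_nonneg _)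
  have h2 := Complex.norm_le_norm_of_mapsTo_ball hd hmaps (by simp [hb]) hz
  simp only [norm_div] at h2
  rw [div_le_iff₀ (norm_pos_iff.mpr (hne z hz))] at h2
  exact h2

lemma IsPS.at_zero {a : ℕ → ℂ} {f : ℂ → ℂ} (h : IsPS a f) : f 0 = a 0 := by
  have h1 := h 0 (by simp)
  have h2 : HasSum (fun n => a n * (0 : ℂ) ^ n) (a 0 * (0 : ℂ) ^ 0) :=
    hasSum_single 0 (by
      intro n hn
      simp [hn])
  have := h1.unique h2
  simpa using this

lemma IsPS.affine {c : ℕ → ℂ} {B : ℂ → ℂ} (h : IsPS c B) (α β : ℂ) :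
    IsPS (fun n => if n = 0 then α else β * c n) (fun z => α + β * (B z - c 0)) := by
  intro z hz
  have h1 := (h z hz).mul_left β
  have h2 : HasSum (fun n : ℕ => if n = 0 then (α - β * c 0) else 0) (α - β * c 0) :=
    hasSum_ite_eq 0 _
  have h3 := h1.add h2
  have h4 : (fun n => β * (c n * z ^ n) + if n = 0 then (α - β * c 0) else 0)
      = fun n => (if n = 0 then α else β * c n) * z ^ n := by
    funext n
    by_cases hn : n = 0
    · subst hn
      simp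
    · simp [hn]
      ring
  rw [h4] at h3
  have h5 : β * B z + (α - β * c 0) = α + β * (B z - c 0) := by ring
  rw [h5] at h3
  exact h3

lemma F1_aux {c : ℕ → ℂ} {B : ℂ → ℂ} (hB : IsPS c B) (h1 : ∀ z : ℂ, ‖z‖ < 1 → ‖B z‖ ≤ 1)
    (hc : ‖c 0‖ < 1) {t : ℝ} (h0 : 0 ≤ t) (ht : t < 1) (N : ℕ) :
    (∑ n ∈ range N, ‖c (n + 1)‖ ^ 2 * (t ^ 2) ^ (n + 1)) * (1 - ‖c 0‖ ^ 2 * t ^ 2)
      ≤ t ^ 2 * (1 - ‖c 0‖ ^ 2) ^ 2 := by
  have hB0 := hB.at_zero
  have hsp := schwarz_pick hB.diff h1 (by rw [hB0]; exact hc)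
  rw [hB0] at hsp
  have hD := hB.affine 0 1
  have hE := hB.affine ((t * (1 - ‖c 0‖ ^ 2) : ℝ) : ℂ) (-(t * (starRingEnd ℂ) (c 0)))
  have hsum : Summable (fun n => ‖c (n + 1)‖ ^ 2 * (t ^ 2) ^ (n + 1)) :=
    (summable_nat_add_iff (f := fun n => ‖c n‖ ^ 2 * (t ^ 2) ^ n) 1).mpr (summable_sq hB h0 ht)
  obtain ⟨s, hs⟩ : ∃ s, s = ∑' n, ‖c (n + 1)‖ ^ 2 * (t ^ 2) ^ (n + 1) := ⟨_, rfl⟩
  have hsT : Tendsto (fun N => ∑ n ∈ range N, ‖c (n + 1)‖ ^ 2 * (t ^ 2) ^ (n + 1)) atTop (𝓝 s) := by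
    rw [hs]
    exact hsum.hasSum.tendsto_sum_nat
  have hTD : Tendsto (fun N => ∑ n ∈ range N, ‖(if n = 0 then (0 : ℂ) else 1 * c n)‖ ^ 2 * (t ^ 2) ^ n)
      atTop (𝓝 s) := by
    rw [← tendsto_add_atTop_iff_nat 1]
    refine hsT.congr ?_
    intro N
    rw [Finset.sum_range_succ']
    simp
  have hTE : Tendsto (fun N => ∑ n ∈ range N, ‖(if n = 0 then ((t * (1 - ‖c 0‖ ^ 2) : ℝ) : ℂ) else
      (-(t * (starRingEnd ℂ) (c 0))) * c n)‖ ^ 2 * (t ^ 2) ^ n)
      atTop (𝓝 (t ^ 2 * ‖c 0‖ ^ 2 * s + (t * (1 - ‖c 0‖ ^ 2)) ^ 2)) := by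
    rw [← tendsto_add_atTop_iff_nat 1]
    refine ((hsT.const_mul (t ^ 2 * ‖c 0‖ ^ 2)).add_const _).congr ?_
    intro N
    rw [Finset.sum_range_succ']
    simp only [Nat.add_eq_zero_iff, one_ne_zero, and_false, if_false, if_true, pow_zero, mul_one,
      Complex.norm_real, Real.norm_eq_abs, sq_abs]
    congr 1
    rw [Finset.mul_sum]
    apply Finset.sum_congr rfl
    intro n _
    rw [norm_mul, norm_neg, norm_mul, RCLike.norm_conj, Complex.norm_real, Real.norm_eq_abs,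
      mul_pow, mul_pow, sq_abs]
    ring
  have hle := ps_mono hD hE h0 ht (by
    intro z hz
    have h2 := hsp z (by rw [hz]; exact ht)
    rw [hz] at h2
    have h3 : (0 : ℂ) + 1 * (B z - c 0) = B z - c 0 := by ring
    have h4 : ((t * (1 - ‖c 0‖ ^ 2) : ℝ) : ℂ) + -(t * (starRingEnd ℂ) (c 0)) * (B z - c 0)
        = t * (1 - (starRingEnd ℂ) (c 0) * B z) := by
      have h5 : (starRingEnd ℂ) (c 0) * c 0 = ((‖c 0‖ ^ 2 : ℝ) : ℂ) := by
        rw [Complex.conj_mul']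
        push_cast
        ring
      push_cast at h5 ⊢
      linear_combination (t : ℂ) * h5
    rw [h3, h4, norm_mul, Complex.norm_real, Real.norm_of_nonneg h0]
    exact h2) hTD hTE
  have hmono : Monotone (fun N => ∑ n ∈ range N, ‖c (n + 1)‖ ^ 2 * (t ^ 2) ^ (n + 1)) := by
    intro m n hmn
    apply Finset.sum_le_sum_of_subset_of_nonneg (Finset.range_mono hmn)
    intro i _ _
    positivity
  have hN := hmono.ge_of_tendsto hsT N
  have hpos : 0 ≤ 1 - ‖c 0‖ ^ 2 * t ^ 2 := by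
    have h2 := norm_nonneg (c 0)
    have h3 : ‖c 0‖ ^ 2 ≤ 1 := by nlinarith
    have h4 : t ^ 2 ≤ 1 := by nlinarith
    nlinarith [mul_le_mul h3 h4 (sq_nonneg t) zero_le_one]
  have h6 := mul_le_mul_of_nonneg_right hN hpos
  refine h6.trans ?_
  nlinarith

/-- the weighted square estimate for a bounded function -/
lemma F1 {c : ℕ → ℂ} {B : ℂ → ℂ} (hB : IsPS c B) (h1 : ∀ z : ℂ, ‖z‖ < 1 → ‖B z‖ ≤ 1)
    {ρ : ℝ} (h0 : 0 ≤ ρ) (hρ : ρ ≤ 1) (N : ℕ) :
    (∑ n ∈ range N, ‖c (n + 1)‖ ^ 2 * ρ ^ (n + 1)) * (1 - ‖c 0‖ ^ 2 * ρ)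
      ≤ ρ * (1 - ‖c 0‖ ^ 2) ^ 2 := by
  have hB0 := hB.at_zero
  rcases lt_or_ge (‖c 0‖) 1 with hc | hc
  · rcases eq_or_lt_of_le hρ with hρ1 | hρ1
    · subst hρ1
      have h2 := close_one (fun t => (∑ n ∈ range N, ‖c (n + 1)‖ ^ 2 * (t ^ 2) ^ (n + 1)) *
        (1 - ‖c 0‖ ^ 2 * t ^ 2) - t ^ 2 * (1 - ‖c 0‖ ^ 2) ^ 2) (by fun_prop) 0 (by
          intro t h3 h4
          have := F1_aux hB h1 hc h3 h4 N
          linarith)
      simp only [one_pow] at h2 ⊢
      linarith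
    · have h3 : 0 ≤ √ρ := Real.sqrt_nonneg _
      have h4 : √ρ < 1 := by
        rw [Real.sqrt_lt' one_pos]
        simpa using hρ1
      have h5 := F1_aux hB h1 hc h3 h4 N
      rw [Real.sq_sqrt h0] at h5
      exact h5
  · have hc1 : ‖c 0‖ = 1 := by
      apply le_antisymm _ hc
      rw [← hB0]
      exact h1 0 (by simp)
    have h2 := close_one (fun t => ∑ n ∈ range (N + 1), ‖c n‖ ^ 2 * (t ^ 2) ^ n) (by fun_prop) 1 (by
      intro t h3 h4
      have := ps_le_const hB h3 h4 (M := 1) (fun z hz => h1 z (by rw [hz]; exact h4)) (N + 1)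
      simpa using this)
    simp only [one_pow, mul_one] at h2
    rw [Finset.sum_range_succ', hc1] at h2
    have h3 : ∑ n ∈ range N, ‖c (n + 1)‖ ^ 2 * ρ ^ (n + 1) ≤ ∑ n ∈ range N, ‖c (n + 1)‖ ^ 2 := by
      apply Finset.sum_le_sum
      intro n _
      exact mul_le_of_le_one_right (by positivity) (pow_le_one₀ h0 hρ)
    rw [hc1]
    have h4 : 0 ≤ 1 - 1 ^ 2 * ρ := by linarith
    have h5 : ∑ n ∈ range N, ‖c (n + 1)‖ ^ 2 * ρ ^ (n + 1) ≤ 0 := by linarith
    have h6 := mul_nonneg_of_nonpos_of_nonpos (neg_nonpos.mpr h4) h5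
    nlinarith

end Pool.Agent.X216.BH
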